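import Pool.Agent.Y569.RT.Stage

set_option autoImplicit false

/-!
# Square toasts almost everywhere: all stages
-/

namespace Pool.Agent.Y569.RT

open MeasureTheory Filter Topology
open scoped ENNReal

/-- A sequence of families of squares such that almost every point is covered infinitely often and
is eventually far from all boundaries. -/
theorem stages {X : Type} [MeasurableSpace X] [StandardBorelSpace X] {A : ℤ × ℤ → X → X}
    (hA : Act2 A) (μ : Measure X) [IsFiniteMeasure μ] :
    ∃ (C : ℕ → Set X) (w : ℕ → ℕ), (∀ n, MeasurableSet (C n)) ∧ StrictMono w ∧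
      (∀ n, ∀ v ∈ C n, ∀ g, A g v ∈ C n → g = 0 ∨ (w n : ℤ) + 2 < |g.1| ∨
        (w n : ℤ) + 2 < |g.2|) ∧
      ∀ᵐ x ∂μ, (∀ N, ∃ n ≥ N, x ∈ cov A (C n) (w n)) ∧
        ∃ N, ∀ n ≥ N, x ∉ near A (C (n + 1)) (w (n + 1)) (2 * w n + 4) := by
  classical
  choose fC fw h1 h2 h3 h4 h5 using fun (r n : ℕ) (W : X → ℝ≥0∞) => stage hA μ r n W
  -- the recursion: size of the previous squares and the weight
  let st : ℕ → ℕ × (X → ℝ≥0∞) := fun n => Nat.rec (0, fun _ => 1) (fun n s =>
    (fw s.1 n s.2, fun x => if x ∈ cov A (fC s.1 n s.2) (fw s.1 n s.2) then s.2 x / 2 else s.2 x)) n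
  let C : ℕ → Set X := fun n => fC (st n).1 n (st n).2
  let w : ℕ → ℕ := fun n => fw (st n).1 n (st n).2
  let W : ℕ → X → ℝ≥0∞ := fun n => (st n).2
  have hst : ∀ n, (st (n + 1)).1 = w n := fun n => rfl
  have hW0 : ∀ x, W 0 x = 1 := fun x => rfl
  have hWs : ∀ n x, W (n + 1) x = if x ∈ cov A (C n) (w n) then W n x / 2 else W n x :=
    fun n x => rfl
  have hCm : ∀ n, MeasurableSet (C n) := fun n => h1 _ _ _
  have hcm : ∀ n, MeasurableSet (cov A (C n) (w n)) := fun n => cov_meas hA (hCm n) _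
  have hWm : ∀ n, Measurable (W n) := by
    intro n
    induction n with
    | zero => exact measurable_const
    | succ n ih =>
      have : W (n + 1) = fun x => if x ∈ cov A (C n) (w n) then W n x / 2 else W n x := rfl
      rw [this]
      exact Measurable.ite (hcm n) (ih.div_const 2) ih
  have hwmono : StrictMono w := strictMono_nat_of_lt_succ fun n => by
    have := h2 (st (n + 1)).1 (n + 1) (st (n + 1)).2
    rw [hst] at this
    exact this
  refine ⟨C, w, hCm, hwmono, fun n => h3 _ _ _, ?_⟩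
  -- lower bound of the weights
  have hWlow : ∀ n x, (1 / 2 : ℝ≥0∞) ^ n ≤ W n x := by
    intro n x
    induction n with
    | zero => rw [hW0, pow_zero]
    | succ n ih =>
      rw [hWs, pow_succ]
      split_ifs
      · rw [div_eq_mul_inv (W n x)]
        exact mul_le_mul' ih (one_div (2 : ℝ≥0∞)).le
      · refine le_trans ?_ ih
        calc (1 / 2 : ℝ≥0∞) ^ n * (1 / 2) ≤ (1 / 2 : ℝ≥0∞) ^ n * 1 := by
              gcongr
              rw [one_div]
              exact ENNReal.inv_le_one.2 (by norm_num)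
          _ = _ := mul_one _
  -- the integrals decrease
  have hint : ∀ n, 162 * ∫⁻ x, W (n + 1) x ∂μ ≤ 161 * ∫⁻ x, W n x ∂μ := by
    intro n
    set S := cov A (C n) (w n) with hS
    have e1 : ∫⁻ x, W (n + 1) x ∂μ = (∫⁻ x in S, W n x ∂μ) / 2 + ∫⁻ x in Sᶜ, W n x ∂μ := by
      rw [← lintegral_add_compl _ (hcm n)]
      congr 1
      · rw [setLIntegral_congr_fun (hcm n) (g := fun x => W n x / 2) (fun x hx => by
          simp only [hWs]; rw [if_pos hx])]
        simp only [div_eq_mul_inv]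
        rw [lintegral_mul_const _ (hWm n)]
      · refine setLIntegral_congr_fun (hcm n).compl fun x hx => ?_
        simp only [hWs]
        rw [if_neg hx]
    have e2 : ∫⁻ x, W n x ∂μ = (∫⁻ x in S, W n x ∂μ) + ∫⁻ x in Sᶜ, W n x ∂μ :=
      (lintegral_add_compl _ (hcm n)).symm
    have e3 : ∫⁻ x, W n x ∂μ ≤ 81 * ∫⁻ x in S, W n x ∂μ := h5 (st n).1 n (st n).2
    rw [e2] at e3
    rw [e1, e2]
    have hfin : ∫⁻ x in S, W n x ∂μ ≠ ⊤ := by
      have h6 : ∀ n x, W n x ≤ 1 := by
        intro n x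
        induction n with
        | zero => exact (hW0 x).le
        | succ n ih =>
          rw [hWs]
          split_ifs
          · exact ENNReal.half_le_self.trans ih
          · exact ih
      have h7 : ∫⁻ x in S, W n x ∂μ ≤ ∫⁻ _x in S, 1 ∂μ := lintegral_mono fun x => h6 n x
      rw [setLIntegral_one] at h7
      exact (h7.trans_lt (measure_lt_top μ S)).ne
    set a := ∫⁻ x in S, W n x ∂μ with ha
    set b := ∫⁻ x in Sᶜ, W n x ∂μ with hb
    have h8 : b ≤ 80 * a := by
      have h9 : a + b ≤ a + 80 * a := by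
        refine e3.trans (le_of_eq ?_)
        rw [show (81 : ℝ≥0∞) = 1 + 80 by norm_num, add_mul, one_mul]
      exact (ENNReal.add_le_add_iff_left hfin).1 h9
    calc 162 * (a / 2 + b) = 81 * (2 * (a / 2)) + 161 * b + b := by
          rw [mul_add]
          rw [show (162 : ℝ≥0∞) * (a / 2) = 81 * (2 * (a / 2)) by rw [← mul_assoc]; norm_num]
          rw [show (162 : ℝ≥0∞) = 161 + 1 by norm_num, add_mul, one_mul, add_assoc]
      _ = 81 * a + 161 * b + b := by
          rw [ENNReal.mul_div_cancel (by norm_num) (by norm_num)]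
      _ ≤ 81 * a + 161 * b + 80 * a := by gcongr
      _ = 161 * (a + b) := by
          rw [show (161 : ℝ≥0∞) = 81 + 80 by norm_num]
          ring
  have hint2 : ∀ n, ∫⁻ x, W n x ∂μ ≤ (161 / 162 : ℝ≥0∞) ^ n * μ Set.univ := by
    intro n
    induction n with
    | zero =>
      simp only [hW0, lintegral_const, pow_zero]
      exact le_rfl
    | succ n ih =>
      have h6 : ∫⁻ x, W (n + 1) x ∂μ ≤ (161 / 162) * ∫⁻ x, W n x ∂μ := by
        rw [div_eq_mul_inv, mul_comm (161 : ℝ≥0∞), mul_assoc,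
          ← ENNReal.div_eq_inv_mul]
        rw [ENNReal.le_div_iff_mul_le (Or.inl (by norm_num)) (Or.inl (by norm_num)), mul_comm]
        exact hint n
      calc _ ≤ (161 / 162) * ∫⁻ x, W n x ∂μ := h6
        _ ≤ (161 / 162) * ((161 / 162 : ℝ≥0∞) ^ n * μ Set.univ) := by gcongr
        _ = _ := by rw [pow_succ]; ring
  have hlim : Tendsto (fun n => ∫⁻ x, W n x ∂μ) atTop (𝓝 0) := by
    have h6 : Tendsto (fun n => (161 / 162 : ℝ≥0∞) ^ n * μ Set.univ) atTop (𝓝 (0 * μ Set.univ)) := by
      refine ENNReal.Tendsto.mul_const (ENNReal.tendsto_pow_atTop_nhds_zero_of_lt_one ?_) ?_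
      · rw [ENNReal.div_lt_iff (Or.inl (by norm_num)) (Or.inl (by norm_num))]
        norm_num
      · exact Or.inr (measure_ne_top μ _)
    rw [zero_mul] at h6
    exact tendsto_of_tendsto_of_tendsto_of_le_of_le tendsto_const_nhds h6 (fun _ => zero_le)
      hint2
  have hcov : ∀ N, ∀ᵐ x ∂μ, ∃ n ≥ N, x ∈ cov A (C n) (w n) := by
    intro N
    set U : Set X := {x | ∀ n ≥ N, x ∉ cov A (C n) (w n)} with hU
    have hUW : ∀ n, ∀ x ∈ U, N ≤ n → W n x = W N x := by
      intro n x hx hn
      induction n, hn using Nat.le_induction with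
      | base => rfl
      | succ n hn ih => rw [hWs, if_neg (hx n hn), ih]
    have h6 : ∀ n, N ≤ n → (1 / 2 : ℝ≥0∞) ^ N * μ U ≤ ∫⁻ x, W n x ∂μ := by
      intro n hn
      refine le_trans ?_ (mul_meas_ge_le_lintegral (hWm n) ((1 / 2 : ℝ≥0∞) ^ N))
      gcongr
      intro x hx
      rw [Set.mem_ofPred_eq, hUW n x hx hn]
      exact hWlow N x
    have h7 : (1 / 2 : ℝ≥0∞) ^ N * μ U ≤ 0 :=
      ge_of_tendsto hlim (eventually_atTop.2 ⟨N, h6⟩)
    have h8 : μ U = 0 := by
      rcases mul_eq_zero.1 (le_antisymm h7 zero_le) with h | h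
      · exfalso
        have h9 : (1 / 2 : ℝ≥0∞) ^ N ≠ 0 := by
          refine pow_ne_zero _ ?_
          norm_num
        exact h9 h
      · exact h
    rw [ae_iff]
    refine measure_mono_null ?_ h8
    intro x hx
    simp only [Set.mem_ofPred_eq, not_exists, not_and] at hx
    exact hx
  have hnear : ∀ᵐ x ∂μ, ∃ N, ∀ n ≥ N, x ∉ near A (C (n + 1)) (w (n + 1)) (2 * w n + 4) := by
    have h6 : ∀ n, μ (near A (C (n + 1)) (w (n + 1)) (2 * w n + 4)) ≤
        μ Set.univ * (1 / 2 : ℝ≥0∞) ^ n := by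
      intro n
      have h7 := h4 (st (n + 1)).1 (n + 1) (st (n + 1)).2
      rw [hst] at h7
      have h8 : 2 ^ n * μ (near A (C (n + 1)) (w (n + 1)) (2 * w n + 4)) ≤ μ Set.univ := by
        refine le_trans ?_ h7
        gcongr
        · norm_num
        · omega
      rw [one_div, ← ENNReal.inv_pow, ← div_eq_mul_inv,
        ENNReal.le_div_iff_mul_le (Or.inl (by positivity)) (Or.inl (by simp)), mul_comm]
      exact h8
    have h7 : ∑' n, μ (near A (C (n + 1)) (w (n + 1)) (2 * w n + 4)) ≠ ⊤ := by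
      refine ne_top_of_le_ne_top ?_ (ENNReal.tsum_le_tsum h6)
      rw [ENNReal.tsum_mul_left, ENNReal.tsum_geometric]
      refine ENNReal.mul_ne_top (measure_ne_top μ _) ?_
      rw [ENNReal.inv_ne_top]
      norm_num
    have h8 := ae_eventually_notMem h7
    filter_upwards [h8] with x hx
    obtain ⟨N, hN⟩ := eventually_atTop.1 hx
    exact ⟨N, hN⟩
  filter_upwards [ae_all_iff.2 hcov, hnear] with x hx1 hx2
  exact ⟨hx1, hx2⟩

end Pool.Agent.Y569.RT
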