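import Pool.Agent.Y569.RT.Toast
import Pool.Agent.Y569.GL.Sh

set_option autoImplicit false

/-!
# Borel, Baire measurable and measurable equivariant maps into subshifts of finite type
-/

namespace Pool.Agent.Y569.RT

open MeasureTheory Filter Topology Pool.Agent.W927 Pool.Agent.Y569.GL
open scoped ENNReal

open Pool.Agent.W927.BM (Rule Rule_congr PBM PBM_iff PBM_inBaire circle_neg emb emb_zero emb_add
  emb_eq_zero emb_fst emb_snd FreeBorel extN extN_eq winN mem_winN)

/-! ### the subshift of walls and colours has measurable maps -/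

section Meas

variable {d : ℕ} (hd : 2 ≤ d)

/-- The first two unit vectors. -/
def f0 : Fin d → ℤ := emb hd 1 0
/-- The first two unit vectors. -/
def f1 : Fin d → ℤ := emb hd 0 1

/-- The action of the plane. -/
def AA (p : ℤ × ℤ) (x : FreePart d) : FreePart d := sa (emb hd p.1 p.2) x

theorem AA_act : Act2 (AA hd) where
  zero x := by
    change sa (emb hd 0 0) x = x
    rw [emb_zero]
    exact sa_free.zero x
  add g h x := by
    change sa (emb hd (g.1 + h.1) (g.2 + h.2)) x = sa (emb hd g.1 g.2) (sa (emb hd h.1 h.2) x)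
    rw [emb_add]
    exact sa_free.add _ _ x
  meas g := sa_measurable _
  free g x h := by
    have := emb_eq_zero hd (sa_free.free _ _ h)
    exact Prod.ext this.1 this.2

theorem emb_neg (a b : ℤ) : emb hd (-a) (-b) = -emb hd a b := by
  have h := emb_add hd (-a) a (-b) b
  rw [neg_add_cancel, neg_add_cancel, emb_zero] at h
  exact eq_neg_of_add_eq_zero_left h.symm

open Classical in
theorem meas_ite {X β : Type} [MeasurableSpace X] {S1 S2 : Set X} (h1 : MeasurableSet S1)
    (h2 : MeasurableSet S2) (a b c v : β) :
    MeasurableSet {y | (if y ∈ S1 then a else if y ∈ S2 then b else c) = v} := by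
  have : {y | (if y ∈ S1 then a else if y ∈ S2 then b else c) = v} =
      (S1 ∩ {_y | a = v}) ∪ (S1ᶜ ∩ ((S2 ∩ {_y | b = v}) ∪ (S2ᶜ ∩ {_y | c = v}))) := by
    ext y
    simp only [Set.mem_ofPred_eq, Set.mem_union, Set.mem_inter_iff, Set.mem_compl_iff]
    split_ifs <;> tauto
  rw [this]
  exact (h1.inter (MeasurableSet.const _)).union (h1.compl.inter ((h2.inter
    (MeasurableSet.const _)).union (h2.compl.inter (MeasurableSet.const _))))

/-- For every Borel probability measure there is a measurable equivariant map into the subshift of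
walls and colours. -/
theorem hasMeasure_SB {k : ℕ} (e : Fin k ≃ Lab) : HasMeasure (SB e (f0 hd) (f1 hd)) := by
  classical
  intro μ _
  obtain ⟨q, hq⟩ := exists_surjective_nat (Fin d → ℤ)
  let ν : Measure (FreePart d) :=
    Measure.sum fun n => ((1 / 2 : ℝ≥0∞) ^ n) • μ.map (sa (q n))
  have hν : IsFiniteMeasure ν := by
    refine ⟨?_⟩
    simp only [ν]
    rw [Measure.sum_apply _ MeasurableSet.univ]
    have h1 : ∀ n, ((1 / 2 : ℝ≥0∞) ^ n • μ.map (sa (q n))) Set.univ = (1 / 2 : ℝ≥0∞) ^ n := by
      intro n
      rw [Measure.smul_apply, Measure.map_apply (sa_measurable _) MeasurableSet.univ,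
        Set.preimage_univ, measure_univ, smul_eq_mul, mul_one]
    simp only [h1]
    rw [ENNReal.tsum_geometric, ENNReal.inv_lt_top]
    norm_num
  obtain ⟨K, w, hK, F, hae⟩ := exists_fam (AA_act hd) ν
  -- points all of whose translates are covered
  let G : Set (FreePart d) := {x | ∀ g, sa g x ∈ EB (AA hd) K w InB}
  have hGi : ∀ g x, x ∈ G → sa g x ∈ G := by
    intro g x hx h
    rw [← sa_free.add]
    exact hx _
  have hGi' : ∀ g x, x ∉ G → sa g x ∉ G := by
    intro g x hx h
    apply hx
    have := hGi (-g) _ h
    rwa [← sa_free.add, neg_add_cancel, sa_free.zero] at this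
  have hGae : ∀ᵐ x ∂μ, x ∈ G := by
    have h1 : ∀ n, ∀ᵐ x ∂μ, sa (q n) x ∈ EB (AA hd) K w InB := by
      intro n
      have hm : MeasurableSet (EB (AA hd) K w InB) := EB_meas (AA_act hd) hK w InB
      have h2 : ∀ᵐ x ∂ν, x ∈ EB (AA hd) K w InB := by
        filter_upwards [hae] with x hx
        have := hx 0
        rwa [(AA_act hd).zero] at this
      have h3 := Measure.ae_sum_iff.1 h2 n
      have h4 : ∀ᵐ x ∂(μ.map (sa (q n))), x ∈ EB (AA hd) K w InB := by
        rw [ae_iff] at h3 ⊢
        rw [Measure.smul_apply, smul_eq_mul] at h3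
        rcases mul_eq_zero.1 h3 with h | h
        · exfalso
          exact (pow_ne_zero n (by norm_num : (1 / 2 : ℝ≥0∞) ≠ 0)) h
        · exact h
      exact ae_of_ae_map (sa_measurable _).aemeasurable h4
    filter_upwards [ae_all_iff.2 h1] with x hx
    intro g
    obtain ⟨n, rfl⟩ := hq g
    exact hx n
  obtain ⟨γ, hγ⟩ := Pool.Agent.W927.BM.exists_cocycle (a := sa (d := d)) sa_free.zero sa_free.add
    sa_free.free
  let i0 : Fin d := ⟨0, by omega⟩
  let i1 : Fin d := ⟨1, by omega⟩
  let lb : FreePart d → Lab := fun y => (hl (AA hd) K w y, vl (AA hd) K w y, cl (AA hd) K w y, .n)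
  let lc : FreePart d → Lab := fun y => (.n, .n, decide ((γ y i0 + γ y i1) % 2 = 0), .n)
  let L : FreePart d → Lab := fun y => if y ∈ G then lb y else lc y
  let T : FreePart d → Conf d (Fin k) := fun x g => e.symm (L (sa g x))
  let T' : FreePart d → Conf d (Fin k) := fun x g => e.symm (lb (sa g x))
  have hTeq : ∀ (g : Fin d → ℤ) (x y : FreePart d), y.1 = shift g x.1 → T y = shift g (T x) := by
    intro g x y h
    rw [eq_sa_iff] at h
    subst h
    funext h
    change e.symm (L (sa h (sa g x))) = e.symm (L (sa (h + g) x))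
    rw [sa_free.add]
  refine ⟨T, ⟨?_, hTeq⟩, ?_⟩
  · intro x g
    have e1 : ∀ h : Fin d → ℤ, e (shift g (T x) h) = L (sa h (sa g x)) := by
      intro h
      change e (e.symm (L (sa (h + g) x))) = _
      rw [Equiv.apply_symm_apply, sa_free.add]
    change RuleB (f0 hd) (f1 hd) (fun h => e (shift g (T x) h))
    simp only [e1]
    generalize sa g x = y
    have e2 : sa (-f0 hd) y = AA hd (-1, 0) y := by
      change _ = sa (emb hd (-1) 0) y
      have := emb_neg hd 1 0
      rw [neg_zero] at this
      rw [this]
      rfl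
    have e3 : sa (-f1 hd) y = AA hd (0, -1) y := by
      change _ = sa (emb hd 0 (-1)) y
      have := emb_neg hd 0 1
      rw [neg_zero] at this
      rw [this]
      rfl
    unfold RuleB
    simp only [sa_free.zero]
    by_cases hy : y ∈ G
    · have h1 := hGi (-f0 hd) y hy
      have h2 := hGi (-f1 hd) y hy
      have l0 : L y = lb y := if_pos hy
      have l1 : L (sa (-f0 hd) y) = lb (sa (-f0 hd) y) := if_pos h1
      have l2 : L (sa (-f1 hd) y) = lb (sa (-f1 hd) y) := if_pos h2
      rw [l0, l1, l2, e2, e3]
      have hc : ∃ n p, AA hd p y ∈ K n ∧ InB p.1 p.2 (w n) := by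
        have := hy 0
        rw [sa_free.zero] at this
        exact this
      exact ⟨rule_walls F y, rule_v F hc, rule_h F hc⟩
    · have h1 := hGi' (-f0 hd) y hy
      have h2 := hGi' (-f1 hd) y hy
      have l0 : L y = lc y := if_neg hy
      have l1 : L (sa (-f0 hd) y) = lc (sa (-f0 hd) y) := if_neg h1
      have l2 : L (sa (-f1 hd) y) = lc (sa (-f1 hd) y) := if_neg h2
      rw [l0, l1, l2]
      have c0 : f0 hd i0 = 1 := emb_fst hd 1 0
      have c1 : f0 hd i1 = 0 := emb_snd hd 1 0
      have c2 : f1 hd i0 = 0 := emb_fst hd 0 1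
      have c3 : f1 hd i1 = 1 := emb_snd hd 0 1
      have key : ∀ z : ℤ, decide (z % 2 = 0) = !decide ((z - 1) % 2 = 0) := by
        intro z
        by_cases h : z % 2 = 0
        · rw [decide_eq_true h, decide_eq_false (by omega)]; rfl
        · rw [decide_eq_false h, decide_eq_true (by omega)]; rfl
      refine ⟨by simp [lc, okV], fun _ => ?_, fun _ => ?_⟩
      · change decide ((γ y i0 + γ y i1) % 2 = 0) =
          !decide ((γ (sa (-f0 hd) y) i0 + γ (sa (-f0 hd) y) i1) % 2 = 0)
        rw [key, hγ]
        simp only [Pi.add_apply, Pi.neg_apply, c0, c1]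
        congr 3
        ring_nf
      · change decide ((γ y i0 + γ y i1) % 2 = 0) =
          !decide ((γ (sa (-f1 hd) y) i0 + γ (sa (-f1 hd) y) i1) % 2 = 0)
        rw [key, hγ]
        simp only [Pi.add_apply, Pi.neg_apply, c2, c3]
        congr 3
        ring_nf
  · intro B hB
    have hT' : Measurable T' := by
      refine measurable_pi_iff.2 fun g => ?_
      have hlb : ∀ i : Fin k, MeasurableSet {y | e.symm (lb y) = i} := by
        intro i
        have h1 : {y | e.symm (lb y) = i} = {y | hl (AA hd) K w y = (e i).1} ∩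
            ({y | vl (AA hd) K w y = (e i).2.1} ∩ ({y | cl (AA hd) K w y = (e i).2.2.1} ∩
              {_y | ML.n = (e i).2.2.2})) := by
          ext y
          simp only [Set.mem_ofPred_eq, Set.mem_inter_iff]
          rw [Equiv.symm_apply_eq, Prod.ext_iff, Prod.ext_iff, Prod.ext_iff]
        rw [h1]
        have hb := EB_meas (AA_act hd) hK w PB
        have ht := EB_meas (AA_act hd) hK w PT
        have hl' := EB_meas (AA_act hd) hK w PL
        have hr := EB_meas (AA_act hd) hK w PR
        have hcs := CS_meas (AA_act hd) hK w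
        refine MeasurableSet.inter ?_ (MeasurableSet.inter ?_ (MeasurableSet.inter ?_
          (MeasurableSet.const _)))
        · exact meas_ite hb ht _ _ _ _
        · exact meas_ite hl' hr _ _ _ _
        · unfold cl
          cases (e i).2.2.1
          · have : {y | decide (y ∈ CS (AA hd) K w) = false} = (CS (AA hd) K w)ᶜ := by
              ext y; simp
            rw [this]
            exact hcs.compl
          · have : {y | decide (y ∈ CS (AA hd) K w) = true} = CS (AA hd) K w := by
              ext y; simp
            rw [this]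
            exact hcs
      have h1 : Measurable fun y => e.symm (lb y) := measurable_to_countable' fun i => hlb i
      exact h1.comp (sa_measurable g)
    have hTT : T =ᵐ[μ] T' := by
      filter_upwards [hGae] with x hx
      funext g
      change e.symm (L (sa g x)) = e.symm (lb (sa g x))
      congr 1
      exact if_pos (hGi g x hx)
    have h1 : AEMeasurable T μ := ⟨T', hT', hTT⟩
    exact h1.nullMeasurable hB

end Meas

/-! ### the planar problem as a subshift -/

section Cat

variable {d k : ℕ} (hd : 2 ≤ d) (e : Fin k ≃ Pool.Agent.W927.BM.Lab)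

/-- The subshift of the planar problem. -/
def SC : Set (Conf d (Fin k)) :=
  {s | ∀ g, Rule (fun t x => e (shift g s (emb hd t x))) 0 0}

theorem isSFT_SC : IsSFT (SC hd e) := by
  classical
  refine isSFT_of_window (winN hd) (fun s => Rule (fun t x => e (s (emb hd t x))) 0 0) ?_
  intro s s' h hR
  refine Rule_congr ?_ hR
  intro t x ht hx
  rw [zero_add, zero_add, h _ (mem_winN hd ht hx)]

theorem SC_baire : HasBaire (SC hd e) := by
  have hfb : FreeBorel (sa (d := d)) := ⟨sa_free.zero, sa_free.add, sa_measurable, sa_free.free⟩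
  obtain ⟨f, hf, hfP⟩ := PBM_inBaire hd e (FreePart d) sa hfb
  have hR := (PBM_iff hd e sa_free.add f).1 hfP
  refine ⟨fun x g => f (sa g x), ⟨?_, ?_⟩, ?_⟩
  · intro x g
    have h1 := hR (sa g x) 0 0
    have h2 : (fun t x' => e (shift g (fun g => f (sa g x)) (emb hd t x'))) =
        fun t x' => e (f (sa (emb hd t x') (sa g x))) := by
      funext t z
      change e (f (sa (emb hd t z + g) x)) = _
      rw [sa_free.add]
    change Rule (fun t x' => e (shift g (fun g => f (sa g x)) (emb hd t x'))) 0 0
    rw [h2]
    exact h1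
  · intro g x y h
    rw [eq_sa_iff] at h
    subst h
    funext h
    change f (sa h (sa g x)) = f (sa (h + g) x)
    rw [sa_free.add]
  · intro B hB
    have hfm : ∀ g : Fin d → ℤ, ∀ i, BaireMeasurableSet ((fun x => f (sa g x)) ⁻¹' {i}) := by
      intro g i
      have h1 : (fun x => f (sa g x)) ⁻¹' {i} = (saHomeo g) ⁻¹' (f ⁻¹' {i}) := rfl
      rw [h1]
      exact (hf i).preimage (saHomeo g).continuous (saHomeo g).isOpenMap
    -- the sets with the Baire property form a σ-algebra
    have hm : @Measurable (FreePart d) (Conf d (Fin k))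
        (eventuallyMeasurableSpace (borel _) (residual _)) _ (fun x g => f (sa g x)) :=
      (@measurable_pi_iff _ _ _ (eventuallyMeasurableSpace (borel _) (residual _)) _ _).2
        fun g => @measurable_to_countable' (Fin k) (FreePart d) _ _
          (eventuallyMeasurableSpace (borel _) (residual _)) _ fun i => hfm g i
    exact hm hB

theorem SC_not_measure : ¬ HasMeasure (SC hd e) := by
  intro H
  obtain ⟨α, hα⟩ := exists_alpha d
  have hP : IsProbabilityMeasure (volume : Measure TT) := ⟨by simp⟩
  obtain ⟨T, hT, hTm⟩ := H (Measure.map (codeF hα) volume)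
    (Measure.isProbabilityMeasure_map (measurable_codeF hα).aemeasurable)
  have hread : ∀ θ g, T (codeF hα θ) g = T (codeF hα (lin α g + θ)) 0 := by
    intro θ g
    have := hT.equivariant g (codeF hα θ) (codeF hα (lin α g + θ)) (by
      change code α (lin α g + θ) = shift g (code α θ)
      rw [add_comm, code_shift])
    rw [this]
    simp [shift]
  refine circle_neg hd hα ⟨fun θ => e (T (codeF hα θ) 0), ?_, ?_⟩
  · intro l
    have h1 : MeasurableSet {s : Conf d (Fin k) | e (s 0) = l} := by
      have h2 : Measurable fun s : Conf d (Fin k) => s 0 := measurable_pi_apply 0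
      exact h2 (MeasurableSet.of_discrete (s := {i | e i = l}))
    exact (hTm _ h1).preimage ((measurable_codeF hα).quasiMeasurePreserving volume)
  · refine Filter.Eventually.of_forall fun θ t x => ?_
    have h1 := hT.mem (codeF hα θ) (emb hd t x)
    refine Rule_congr ?_ h1
    intro s z _ _
    simp only [zero_add]
    change e (T (codeF hα θ) (emb hd s z + emb hd t x)) = _
    rw [hread, ← emb_add, add_comm s t, add_comm z x]

theorem SC_not_borel : ¬ HasBorel (SC hd e) := by
  rintro ⟨T, hT, hTm⟩
  refine SC_not_measure hd e ?_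
  intro μ _
  exact ⟨T, hT, fun B hB => (hTm hB).nullMeasurableSet⟩

end Cat

/-- For every `d ≥ 2` none of the three conditions are equivalent. -/
theorem main (d : ℕ) (hd : 2 ≤ d) :
    (∃ (k : ℕ) (S : Set (Conf d (Fin k))), IsSFT S ∧ HasBaire S ∧ ¬ HasBorel S ∧
      ¬ HasMeasure S) ∧
    ∃ (k : ℕ) (S : Set (Conf d (Fin k))), IsSFT S ∧ HasMeasure S ∧ ¬ HasBorel S := by
  constructor
  · let e : Fin (Fintype.card Pool.Agent.W927.BM.Lab) ≃ Pool.Agent.W927.BM.Lab :=
      (Fintype.equivFin _).symm
    exact ⟨_, SC hd e, isSFT_SC hd e, SC_baire hd e, SC_not_borel hd e, SC_not_measure hd e⟩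
  · let e : Fin (Fintype.card Lab) ≃ Lab := (Fintype.equivFin _).symm
    refine ⟨_, SB e (f0 hd) (f1 hd), isSFT_SB _ _ _, hasMeasure_SB hd e, SB_not_borel ?_ ?_⟩
    · intro h
      have := emb_fst hd 1 0
      rw [show emb hd 1 0 = 0 from h] at this
      exact absurd this (by simp)
    · intro h
      have := emb_snd hd 0 1
      rw [show emb hd 0 1 = 0 from h] at this
      exact absurd this (by simp)

end Pool.Agent.Y569.RT
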