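import Pool.Agent.Y569.GL.Ind

set_option autoImplicit false

/-!
# Square toasts almost everywhere: one stage

For a free Borel action of `ℤ²`, a finite measure, a weight and a distance, there is a Borel family
of disjoint squares of one size which covers one part in 81 of the weight, while only few points are
close to the boundaries.
-/

namespace Pool.Agent.Y569.RT

open MeasureTheory Pool.Agent.Y569.GL
open scoped ENNReal

/-- A free Borel action of `ℤ²`. -/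
structure Act2 {X : Type} [MeasurableSpace X] (A : ℤ × ℤ → X → X) : Prop where
  zero : ∀ x, A 0 x = x
  add : ∀ g h x, A (g + h) x = A g (A h x)
  meas : ∀ g, Measurable (A g)
  free : ∀ g x, A g x = x → g = 0

section

variable {X : Type} [MeasurableSpace X]

/-- The points covered by the squares of side `w` with corners in `C`. -/
def cov (A : ℤ × ℤ → X → X) (C : Set X) (w : ℤ) : Set X :=
  {x | ∃ p : ℤ × ℤ, (0 ≤ p.1 ∧ p.1 < w ∧ 0 ≤ p.2 ∧ p.2 < w) ∧ A (-p) x ∈ C}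

/-- The points at distance about `D` from the boundary of a square. -/
def near (A : ℤ × ℤ → X → X) (C : Set X) (w D : ℤ) : Set X :=
  {x | ∃ p : ℤ × ℤ, ((-D ≤ p.1 ∧ p.1 < w + D ∧ -D ≤ p.2 ∧ p.2 < w + D) ∧
    ¬ (D ≤ p.1 ∧ p.1 < w - D ∧ D ≤ p.2 ∧ p.2 < w - D)) ∧ A (-p) x ∈ C}

theorem cov_meas {A : ℤ × ℤ → X → X} (hA : Act2 A) {C : Set X} (hC : MeasurableSet C) (w : ℤ) :
    MeasurableSet (cov A C w) := by
  have : cov A C w = ⋃ p : ℤ × ℤ, {_x | 0 ≤ p.1 ∧ p.1 < w ∧ 0 ≤ p.2 ∧ p.2 < w} ∩ A (-p) ⁻¹' C := by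
    ext x
    simp only [cov, Set.mem_ofPred_eq, Set.mem_iUnion, Set.mem_inter_iff, Set.mem_preimage]
  rw [this]
  exact MeasurableSet.iUnion fun p => (MeasurableSet.const _).inter (hA.meas _ hC)

theorem near_meas {A : ℤ × ℤ → X → X} (hA : Act2 A) {C : Set X} (hC : MeasurableSet C) (w D : ℤ) :
    MeasurableSet (near A C w D) := by
  have : near A C w D = ⋃ p : ℤ × ℤ, {_x | (-D ≤ p.1 ∧ p.1 < w + D ∧ -D ≤ p.2 ∧ p.2 < w + D) ∧
    ¬ (D ≤ p.1 ∧ p.1 < w - D ∧ D ≤ p.2 ∧ p.2 < w - D)} ∩ A (-p) ⁻¹' C := by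
    ext x
    simp only [near, Set.mem_ofPred_eq, Set.mem_iUnion, Set.mem_inter_iff, Set.mem_preimage]
  rw [this]
  exact MeasurableSet.iUnion fun p => (MeasurableSet.const _).inter (hA.meas _ hC)

variable [StandardBorelSpace X]

/-- Markers. -/
theorem markers {A : ℤ × ℤ → X → X} (hA : Act2 A) {L : ℤ} (hL : 0 ≤ L) :
    ∃ M : Set X, MeasurableSet M ∧
      (∀ v ∈ M, ∀ g, A g v ∈ M → g = 0 ∨ L < |g.1| ∨ L < |g.2|) ∧
      ∀ x, ∃ g : ℤ × ℤ, |g.1| ≤ L ∧ |g.2| ≤ L ∧ A g x ∈ M := by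
  obtain ⟨M, -, hM, h1, h2⟩ := maxInd hA.zero hA.add hA.meas hA.free
    (((Finset.Icc (-L) L) ×ˢ (Finset.Icc (-L) L)).erase 0) (by simp) (by
      intro g hg
      rw [Finset.mem_erase, Finset.mem_product, Finset.mem_Icc, Finset.mem_Icc] at hg ⊢
      refine ⟨neg_ne_zero.2 hg.1, ?_⟩
      simp only [Prod.fst_neg, Prod.snd_neg]
      omega) MeasurableSet.univ
  refine ⟨M, hM, ?_, ?_⟩
  · intro v hv g hg
    by_contra hcon
    push Not at hcon
    refine h1 v hv g ?_ hg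
    rw [Finset.mem_erase, Finset.mem_product, Finset.mem_Icc, Finset.mem_Icc]
    obtain ⟨h3, h4, h5⟩ := hcon
    rw [abs_le] at h4 h5
    exact ⟨h3, h4, h5⟩
  · intro x
    rcases h2 x (Set.mem_univ x) with h | ⟨g, hg, h⟩
    · exact ⟨0, by simpa using hL, by simpa using hL, by rwa [hA.zero]⟩
    · rw [Finset.mem_erase, Finset.mem_product, Finset.mem_Icc, Finset.mem_Icc] at hg
      exact ⟨g, abs_le.2 hg.2.1, abs_le.2 hg.2.2, h⟩

/-- The corners of the squares: side `s + 2 a`, moved by `b - (a, a)` from the markers. -/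
def Cn (A : ℤ × ℤ → X → X) (M : Set X) (b : ℤ × ℤ) (a : ℤ) : Set X :=
  {v | A (-b + (a, a)) v ∈ M}

omit [StandardBorelSpace X] in
theorem mem_Cn {A : ℤ × ℤ → X → X} (hA : Act2 A) {M : Set X} {b : ℤ × ℤ} {a : ℤ} {p : ℤ × ℤ}
    {x : X} : A (-p) x ∈ Cn A M b a ↔ A (-b + (a, a) + -p) x ∈ M := by
  unfold Cn
  rw [Set.mem_ofPred_eq, ← hA.add]

omit [StandardBorelSpace X] in
theorem near_disj {A : ℤ × ℤ → X → X} (hA : Act2 A) {M : Set X} {s L D E : ℤ}
    (hM : ∀ v ∈ M, ∀ g, A g v ∈ M → g = 0 ∨ L < |g.1| ∨ L < |g.2|) (b : ℤ × ℤ) (hD : 0 ≤ D)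
    (hE : 2 * D + 2 ≤ E) (hL : 4 * s ≤ L) {a a' : ℤ} (_ : 0 ≤ a) (haa : a + E ≤ a')
    (ha' : a' + E ≤ s) {x : X} (h : x ∈ near A (Cn A M b a) (s + 2 * a) D)
    (h' : x ∈ near A (Cn A M b a') (s + 2 * a') D) : False := by
  obtain ⟨p, hp, hpM⟩ := h
  obtain ⟨p', hp', hpM'⟩ := h'
  rw [mem_Cn hA] at hpM hpM'
  have h1 : A ((-b + (a', a') + -p') + -(-b + (a, a) + -p)) (A (-b + (a, a) + -p) x) =
      A (-b + (a', a') + -p') x := by
    rw [← hA.add]
    congr 1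
    abel
  rw [← h1] at hpM'
  have h2 := hM _ hpM _ hpM'
  obtain ⟨p1, p2⟩ := p
  obtain ⟨p1', p2'⟩ := p'
  obtain ⟨b1, b2⟩ := b
  simp only [Prod.ext_iff, Prod.fst_add, Prod.snd_add, Prod.fst_neg, Prod.snd_neg,
    Prod.fst_zero, Prod.snd_zero] at h2
  simp only at hp hp'
  have h3 : ¬ (L < |-b1 + a' + -p1' + -(-b1 + a + -p1)|) := by
    rw [not_lt, abs_le]; omega
  have h4 : ¬ (L < |-b2 + a' + -p2' + -(-b2 + a + -p2)|) := by
    rw [not_lt, abs_le]; omega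
  rcases h2 with h2 | h2 | h2
  · omega
  · exact h3 h2
  · exact h4 h2

/-- One stage. -/
theorem stage {A : ℤ × ℤ → X → X} (hA : Act2 A) (μ : Measure X) (r n : ℕ)
    (W : X → ℝ≥0∞) :
    ∃ (C : Set X) (w : ℕ), MeasurableSet C ∧ r < w ∧
      (∀ v ∈ C, ∀ g, A g v ∈ C → g = 0 ∨ (w : ℤ) + 2 < |g.1| ∨ (w : ℤ) + 2 < |g.2|) ∧
      2 ^ n * μ (near A C w (2 * r + 4)) ≤ μ Set.univ ∧
      ∫⁻ x, W x ∂μ ≤ 81 * ∫⁻ x in cov A C w, W x ∂μ := by
  classical
  set D : ℤ := 2 * r + 4 with hD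
  set E : ℤ := 2 * D + 2 with hE
  set K : ℕ := 2 ^ n with hK
  have hK1 : 1 ≤ K := Nat.one_le_two_pow
  set s : ℤ := K * E with hs
  have hsE : E ≤ s := by
    have : (1 : ℤ) ≤ K := by exact_mod_cast hK1
    rw [hs]
    nlinarith
  obtain ⟨M, hMm, hMs, hMc⟩ := markers hA (L := 4 * s) (by omega)
  -- the translation
  let T : Finset (ℤ × ℤ) := (Finset.Icc (-4) 4) ×ˢ (Finset.Icc (-4) 4)
  have hTne : T.Nonempty := ⟨(0, 0), by simp [T]⟩
  have hTcard : T.card = 81 := by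
    simp only [T, Finset.card_product, Int.card_Icc]
    rfl
  let cr : ℤ × ℤ → Set X := fun t => cov A (Cn A M (s * t.1, s * t.2) 0) s
  have hcover : ∀ x, ∃ t ∈ T, x ∈ cr t := by
    intro x
    obtain ⟨g, hg1, hg2, hg⟩ := hMc x
    rw [abs_le] at hg1 hg2
    have hspos : 0 < s := by omega
    have key : ∀ z : ℤ, -(4 * s) ≤ z → z ≤ 4 * s → ∃ t p : ℤ, -4 ≤ t ∧ t ≤ 4 ∧ 0 ≤ p ∧ p < s ∧
        z = s * t + p := by
      intro z h1 h2
      refine ⟨z / s, z % s, ?_, ?_, Int.emod_nonneg _ hspos.ne', Int.emod_lt_of_pos _ hspos,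
        (Int.mul_ediv_add_emod z s).symm⟩
      · rw [Int.le_ediv_iff_mul_le hspos]; linarith
      · have : z / s < 5 := by
          rw [Int.ediv_lt_iff_lt_mul hspos]; linarith
        omega
    obtain ⟨t1, p1, a1, a2, a3, a4, a5⟩ := key (-g.1) (by omega) (by omega)
    obtain ⟨t2, p2, b1, b2, b3, b4, b5⟩ := key (-g.2) (by omega) (by omega)
    refine ⟨(t1, t2), ?_, (p1, p2), ⟨a3, a4, b3, b4⟩, ?_⟩
    · simp only [T, Finset.mem_product, Finset.mem_Icc]
      exact ⟨⟨a1, a2⟩, b1, b2⟩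
    · rw [mem_Cn hA]
      have : -((s * t1, s * t2) : ℤ × ℤ) + (0, 0) + -(p1, p2) = g := by
        ext
        · simp only [Prod.fst_add, Prod.fst_neg]; omega
        · simp only [Prod.snd_add, Prod.snd_neg]; omega
      simp only
      rw [this]
      exact hg
  obtain ⟨t, htT, htmax⟩ := T.exists_max_image (fun t => ∫⁻ x in cr t, W x ∂μ) hTne
  have hW : ∫⁻ x, W x ∂μ ≤ 81 * ∫⁻ x in cr t, W x ∂μ := by
    have h1 : (Set.univ : Set X) ⊆ ⋃ t : T, cr t.1 := by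
      intro x _
      obtain ⟨t, ht, hx⟩ := hcover x
      exact Set.mem_iUnion.2 ⟨⟨t, ht⟩, hx⟩
    calc ∫⁻ x, W x ∂μ = ∫⁻ x in Set.univ, W x ∂μ := by rw [setLIntegral_univ]
      _ ≤ ∫⁻ x in ⋃ t : T, cr t.1, W x ∂μ := lintegral_mono_set h1
      _ ≤ ∑' t : T, ∫⁻ x in cr t.1, W x ∂μ := lintegral_iUnion_le _ _
      _ = ∑ t : T, ∫⁻ x in cr t.1, W x ∂μ := tsum_fintype _
      _ = ∑ t ∈ T, ∫⁻ x in cr t, W x ∂μ := Finset.sum_coe_sort T (fun t => ∫⁻ x in cr t, W x ∂μ)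
      _ ≤ T.card • ∫⁻ x in cr t, W x ∂μ := Finset.sum_le_card_nsmul T _ _ htmax
      _ = 81 * ∫⁻ x in cr t, W x ∂μ := by rw [hTcard, nsmul_eq_mul]; norm_num
  -- the size
  let b : ℤ × ℤ := (s * t.1, s * t.2)
  let J : Finset ℕ := Finset.range K
  have hJne : J.Nonempty := ⟨0, by simp only [J, Finset.mem_range]; omega⟩
  have hjE : ∀ j ∈ J, 0 ≤ (j : ℤ) * E ∧ (j : ℤ) * E + E ≤ s := by
    intro j hj
    simp only [J, Finset.mem_range] at hj
    have h1 : (j : ℤ) + 1 ≤ K := by exact_mod_cast hj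
    constructor
    · positivity
    · rw [hs]
      nlinarith
  let nr : ℕ → Set X := fun j => near A (Cn A M b (j * E)) (s + 2 * (j * E)) D
  have hCm : ∀ a, MeasurableSet (Cn A M b a) := fun a => hA.meas _ hMm
  have hnrm : ∀ j, MeasurableSet (nr j) := fun j => near_meas hA (hCm _) _ _
  have hdisj : Set.PairwiseDisjoint (J : Set ℕ) nr := by
    have key : ∀ i ∈ J, ∀ j ∈ J, i < j → Disjoint (nr i) (nr j) := by
      intro i hi j hj hij
      rw [Set.disjoint_left]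
      intro x hx hx'
      refine near_disj hA hMs b (by omega) (E := E) (by omega) le_rfl (hjE i hi).1 ?_ (hjE j hj).2
        hx hx'
      have : (i : ℤ) + 1 ≤ j := by exact_mod_cast hij
      nlinarith
    intro i hi j hj hij
    rcases lt_or_gt_of_ne hij with h | h
    · exact key i hi j hj h
    · exact (key j hj i hi h).symm
  obtain ⟨j, hjJ, hjmin⟩ := J.exists_min_image (fun j => μ (nr j)) hJne
  have hμ : 2 ^ n * μ (nr j) ≤ μ Set.univ := by
    have h1 : J.card • μ (nr j) ≤ ∑ i ∈ J, μ (nr i) := Finset.card_nsmul_le_sum J _ _ hjmin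
    have h2 : ∑ i ∈ J, μ (nr i) = μ (⋃ i ∈ J, nr i) :=
      (measure_biUnion_finset hdisj fun i _ => hnrm i).symm
    have h3 : μ (⋃ i ∈ J, nr i) ≤ μ Set.univ := measure_mono (Set.subset_univ _)
    rw [h2, nsmul_eq_mul, Finset.card_range] at h1
    refine le_trans (le_of_eq ?_) (h1.trans h3)
    rw [hK]
    push_cast
    rfl
  obtain ⟨hj0, hj1⟩ := hjE j hjJ
  set a : ℤ := (j : ℤ) * E with ha
  have hw : ((s + 2 * a).toNat : ℤ) = s + 2 * a := Int.toNat_of_nonneg (by omega)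
  refine ⟨Cn A M b a, (s + 2 * a).toNat, hCm a, ?_, ?_, ?_, ?_⟩
  · zify
    rw [hw]
    omega
  · intro v hv g hg
    rw [hw]
    have h1 : A g (A (-b + (a, a)) v) ∈ M := by
      rw [← hA.add, add_comm, hA.add]
      exact hg
    rcases hMs _ hv g h1 with h | h | h
    · exact Or.inl h
    · right; left
      omega
    · right; right
      omega
  · rw [hw]
    exact hμ
  · refine hW.trans (mul_le_mul_right (lintegral_mono_set ?_) _)
    rw [hw]
    rintro x ⟨p, hp, hx⟩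
    refine ⟨p + (a, a), ?_, ?_⟩
    · simp only [Prod.fst_add, Prod.snd_add]
      omega
    · rw [mem_Cn hA] at hx ⊢
      have : -b + (a, a) + -(p + (a, a)) = -(s * t.1, s * t.2) + (0, 0) + -p := by
        simp only [b]
        ext
        · simp only [Prod.fst_add, Prod.fst_neg]; omega
        · simp only [Prod.snd_add, Prod.snd_neg]; omega
      rw [this]
      exact hx

end

end Pool.Agent.Y569.RT
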