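import Pool.Agent.Y569.RT.Rec
import Pool.Agent.W927.Grid

set_option autoImplicit false

/-!
# Labels of a square toast
-/

namespace Pool.Agent.Y569.RT

open MeasureTheory Filter Topology Pool.Agent.W927

/-- The squares `(x, y, w)` and `(x', y', w')` have boundaries far from each other. -/
def Gd (x y w x' y' w' : ℤ) : Prop :=
  x + w + 2 ≤ x' ∨ x' + w' + 2 ≤ x ∨ y + w + 2 ≤ y' ∨ y' + w' + 2 ≤ y ∨
    (x' + 2 ≤ x ∧ x + w + 2 ≤ x' + w' ∧ y' + 2 ≤ y ∧ y + w + 2 ≤ y' + w') ∨
    (x + 2 ≤ x' ∧ x' + w' + 2 ≤ x + w ∧ y + 2 ≤ y' ∧ y' + w' + 2 ≤ y + w)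

/-- The cell at the origin is in the square. -/
def InB (a b w : ℤ) : Prop := a ≤ 0 ∧ 0 < a + w ∧ b ≤ 0 ∧ 0 < b + w

/-- The vertex at the origin is on the boundary of the square. -/
def OnB (a b w : ℤ) : Prop :=
  (a ≤ 0 ∧ 0 ≤ a + w ∧ (b = 0 ∨ b + w = 0)) ∨ (b ≤ 0 ∧ 0 ≤ b + w ∧ (a = 0 ∨ a + w = 0))

/-- The edge from the origin to the right is on the bottom side. -/
def PB (a b w : ℤ) : Prop := b = 0 ∧ a ≤ 0 ∧ 0 < a + w
/-- The edge from the origin to the right is on the top side. -/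
def PT (a b w : ℤ) : Prop := b + w = 0 ∧ a ≤ 0 ∧ 0 < a + w
/-- The edge upwards from the origin is on the left side. -/
def PL (a b w : ℤ) : Prop := a = 0 ∧ b ≤ 0 ∧ 0 < b + w
/-- The edge upwards from the origin is on the right side. -/
def PR (a b w : ℤ) : Prop := a + w = 0 ∧ b ≤ 0 ∧ 0 < b + w

section

variable {X : Type}

/-- The points with a square of the family `K` at which `P` holds. -/
def EB (A : ℤ × ℤ → X → X) (K : ℕ → Set X) (w : ℕ → ℕ) (P : ℤ → ℤ → ℤ → Prop) : Set X :=
  {y | ∃ n p, A p y ∈ K n ∧ P p.1 p.2 (w n)}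

theorem EB_meas [MeasurableSpace X] {A : ℤ × ℤ → X → X} (hA : Act2 A) {K : ℕ → Set X}
    (hK : ∀ n, MeasurableSet (K n)) (w : ℕ → ℕ) (P : ℤ → ℤ → ℤ → Prop) :
    MeasurableSet (EB A K w P) := by
  have : EB A K w P = ⋃ n : ℕ, ⋃ p : ℤ × ℤ, A p ⁻¹' K n ∩ {_x | P p.1 p.2 (w n)} := by
    ext x
    simp only [EB, Set.mem_ofPred_eq, Set.mem_iUnion, Set.mem_inter_iff, Set.mem_preimage]
  rw [this]
  exact MeasurableSet.iUnion fun n => MeasurableSet.iUnion fun p =>
    (hA.meas _ (hK n)).inter (MeasurableSet.const _)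

open Classical in
/-- Label of the edge to the right. -/
noncomputable def hl (A : ℤ × ℤ → X → X) (K : ℕ → Set X) (w : ℕ → ℕ) (y : X) : HL :=
  if y ∈ EB A K w PB then .b else if y ∈ EB A K w PT then .t else .n

open Classical in
/-- Label of the edge upwards. -/
noncomputable def vl (A : ℤ × ℤ → X → X) (K : ℕ → Set X) (w : ℕ → ℕ) (y : X) : VL :=
  if y ∈ EB A K w PL then .l else if y ∈ EB A K w PR then .r else .n

/-- The cells of colour true. -/
def CS (A : ℤ × ℤ → X → X) (K : ℕ → Set X) (w : ℕ → ℕ) : Set X :=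
  {y | ∃ n p, A p y ∈ K n ∧ InB p.1 p.2 (w n) ∧
    (∀ m < n, ∀ q, A q y ∈ K m → ¬ InB q.1 q.2 (w m)) ∧ (p.1 + p.2) % 2 = 0}

open Classical in
/-- Colour of a cell. -/
noncomputable def cl (A : ℤ × ℤ → X → X) (K : ℕ → Set X) (w : ℕ → ℕ) (y : X) : Bool :=
  decide (y ∈ CS A K w)

theorem CS_meas [MeasurableSpace X] {A : ℤ × ℤ → X → X} (hA : Act2 A) {K : ℕ → Set X}
    (hK : ∀ n, MeasurableSet (K n)) (w : ℕ → ℕ) : MeasurableSet (CS A K w) := by
  have : CS A K w = ⋃ n : ℕ, ⋃ p : ℤ × ℤ, A p ⁻¹' K n ∩ ({_x | InB p.1 p.2 (w n)} ∩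
      ((⋂ m : ℕ, ⋂ q : ℤ × ℤ, ({_x | m < n ∧ InB q.1 q.2 (w m)}ᶜ ∪ (A q ⁻¹' K m)ᶜ)) ∩
        {_x | (p.1 + p.2) % 2 = 0})) := by
    ext x
    simp only [CS, Set.mem_ofPred_eq, Set.mem_iUnion, Set.mem_inter_iff, Set.mem_preimage,
      Set.mem_iInter, Set.mem_union, Set.mem_compl_iff]
    refine exists_congr fun n => exists_congr fun p => and_congr_right fun _ =>
      and_congr_right fun _ => and_congr_left fun _ => ?_
    constructor
    · intro h m q
      have := h m
      have := fun h' => this h' q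
      tauto
    · intro h m hm q hq
      have := h m q
      tauto
  rw [this]
  refine MeasurableSet.iUnion fun n => MeasurableSet.iUnion fun p =>
    (hA.meas _ (hK n)).inter ((MeasurableSet.const _).inter (MeasurableSet.inter ?_
      (MeasurableSet.const _)))
  exact MeasurableSet.iInter fun m => MeasurableSet.iInter fun q =>
    (MeasurableSet.const _).compl.union (hA.meas _ (hK m)).compl

/-- A laminar family of squares. -/
structure Fam [MeasurableSpace X] (A : ℤ × ℤ → X → X) (K : ℕ → Set X) (w : ℕ → ℕ) : Prop where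
  act : Act2 A
  pos : ∀ n, 0 < w n
  pair : ∀ y n p m q, A p y ∈ K n → A q y ∈ K m →
    (n = m ∧ p = q) ∨ Gd p.1 p.2 (w n) q.1 q.2 (w m)

variable [MeasurableSpace X] {A : ℤ × ℤ → X → X} {K : ℕ → Set X} {w : ℕ → ℕ}

theorem mem_EB_shift (hA : Act2 A) (c : ℤ × ℤ) (P : ℤ → ℤ → ℤ → Prop) (y : X) :
    A c y ∈ EB A K w P ↔ y ∈ EB A K w (fun a b w => P (a - c.1) (b - c.2) w) := by
  constructor
  · rintro ⟨n, p, hp, h⟩
    refine ⟨n, p + c, by rw [hA.add]; exact hp, ?_⟩
    simpa using h
  · rintro ⟨n, p, hp, h⟩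
    refine ⟨n, p - c, by rw [← hA.add, sub_add_cancel]; exact hp, ?_⟩
    simpa using h

/-- The vertex rule. -/
theorem rule_walls (F : Fam A K w) (y : X) :
    okV (hl A K w (A (-1, 0) y)) (hl A K w y) (vl A K w (A (0, -1) y)) (vl A K w y) := by
  classical
  unfold hl vl
  simp only [mem_EB_shift F.act]
  by_cases hex : ∃ n p, A p y ∈ K n ∧ OnB p.1 p.2 (w n)
  · obtain ⟨n, p, hp, hon⟩ := hex
    have hwn := F.pos n
    have key : ∀ P : ℤ → ℤ → ℤ → Prop, (∀ a b w, 0 < w → P a b w → OnB a b w) →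
        (y ∈ EB A K w P ↔ P p.1 p.2 (w n)) := by
      intro P hP
      constructor
      · rintro ⟨m, q, hq, h⟩
        rcases F.pair y n p m q hp hq with ⟨rfl, rfl⟩ | h2
        · exact h
        · exfalso
          have h3 := hP _ _ _ (by exact_mod_cast F.pos m) h
          unfold OnB at hon h3
          unfold Gd at h2
          omega
      · exact fun h => ⟨n, p, hp, h⟩
    rw [if_congr (key (fun a b w => PB (a - -1) (b - 0) w) (fun a b w h0 h => by
          unfold PB at h; unfold OnB; omega)) rfl (if_congr (key (fun a b w => PT (a - -1) (b - 0) w)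
            (fun a b w h0 h => by unfold PT at h; unfold OnB; omega)) rfl rfl),
      if_congr (key PB (fun a b w h0 h => by
          unfold PB at h; unfold OnB; omega)) rfl (if_congr (key PT
            (fun a b w h0 h => by unfold PT at h; unfold OnB; omega)) rfl rfl),
      if_congr (key (fun a b w => PL (a - 0) (b - -1) w) (fun a b w h0 h => by
          unfold PL at h; unfold OnB; omega)) rfl (if_congr (key (fun a b w => PR (a - 0) (b - -1) w)
            (fun a b w h0 h => by unfold PR at h; unfold OnB; omega)) rfl rfl),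
      if_congr (key PL (fun a b w h0 h => by
          unfold PL at h; unfold OnB; omega)) rfl (if_congr (key PR
            (fun a b w h0 h => by unfold PR at h; unfold OnB; omega)) rfl rfl)]
    obtain ⟨a, b⟩ := p
    simp only at hon ⊢
    have hwn' : (0 : ℤ) < w n := by exact_mod_cast hwn
    generalize (w n : ℤ) = W at hon hwn'
    unfold PB PT PL PR
    unfold OnB at hon
    unfold okV
    have h8 : (b = 0 ∧ a < 0 ∧ 0 < a + W) ∨ (b + W = 0 ∧ a < 0 ∧ 0 < a + W) ∨
        (a = 0 ∧ b < 0 ∧ 0 < b + W) ∨ (a + W = 0 ∧ b < 0 ∧ 0 < b + W) ∨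
        (a = 0 ∧ b = 0) ∨ (a = 0 ∧ b + W = 0) ∨ (a + W = 0 ∧ b = 0) ∨ (a + W = 0 ∧ b + W = 0) := by
      omega
    rcases h8 with h | h | h | h | h | h | h | h
    · rw [if_pos (by omega), if_pos (by omega), if_neg (by omega), if_neg (by omega),
        if_neg (by omega), if_neg (by omega)]
      simp
    · rw [if_neg (by omega), if_pos (by omega), if_neg (by omega), if_pos (by omega),
        if_neg (by omega), if_neg (by omega), if_neg (by omega), if_neg (by omega)]
      simp
    · rw [if_neg (by omega), if_neg (by omega), if_neg (by omega), if_neg (by omega),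
        if_pos (by omega), if_pos (by omega)]
      simp
    · rw [if_neg (by omega), if_neg (by omega), if_neg (by omega), if_neg (by omega),
        if_neg (by omega), if_pos (by omega), if_neg (by omega), if_pos (by omega)]
      simp
    · rw [if_neg (by omega), if_neg (by omega), if_pos (by omega),
        if_neg (by omega), if_neg (by omega), if_pos (by omega)]
      simp
    · rw [if_neg (by omega), if_neg (by omega), if_neg (by omega), if_pos (by omega),
        if_pos (by omega), if_neg (by omega), if_neg (by omega)]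
      simp
    · rw [if_pos (by omega), if_neg (by omega), if_neg (by omega),
        if_neg (by omega), if_neg (by omega), if_neg (by omega), if_pos (by omega)]
      simp
    · rw [if_neg (by omega), if_pos (by omega), if_neg (by omega), if_neg (by omega),
        if_neg (by omega), if_pos (by omega), if_neg (by omega), if_neg (by omega)]
      simp
  · have key : ∀ P : ℤ → ℤ → ℤ → Prop, (∀ a b w, 0 < w → P a b w → OnB a b w) →
        ¬ y ∈ EB A K w P := by
      rintro P hP ⟨m, q, hq, h⟩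
      exact hex ⟨m, q, hq, hP _ _ _ (by exact_mod_cast F.pos m) h⟩
    rw [if_neg (key _ (fun a b w h0 h => by unfold PB at h; unfold OnB; omega)),
      if_neg (key _ (fun a b w h0 h => by unfold PT at h; unfold OnB; omega)),
      if_neg (key _ (fun a b w h0 h => by unfold PB at h; unfold OnB; omega)),
      if_neg (key _ (fun a b w h0 h => by unfold PT at h; unfold OnB; omega)),
      if_neg (key _ (fun a b w h0 h => by unfold PL at h; unfold OnB; omega)),
      if_neg (key _ (fun a b w h0 h => by unfold PR at h; unfold OnB; omega)),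
      if_neg (key _ (fun a b w h0 h => by unfold PL at h; unfold OnB; omega)),
      if_neg (key _ (fun a b w h0 h => by unfold PR at h; unfold OnB; omega))]
    simp [okV]

theorem cl_eq (F : Fam A K w) {y : X} {n : ℕ} {p : ℤ × ℤ} (hp : A p y ∈ K n)
    (hin : InB p.1 p.2 (w n)) (hmin : ∀ m < n, ∀ q, A q y ∈ K m → ¬ InB q.1 q.2 (w m)) :
    cl A K w y = decide ((p.1 + p.2) % 2 = 0) := by
  classical
  unfold cl
  refine decide_eq_decide.2 ?_
  constructor
  · rintro ⟨m, q, hq, hq1, hq2, hq3⟩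
    have hnm : n = m := by
      rcases lt_trichotomy n m with h | h | h
      · exact absurd hin (hq2 n h p hp)
      · exact h
      · exact absurd hq1 (hmin m h q hq)
    subst hnm
    rcases F.pair y n p n q hp hq with ⟨-, rfl⟩ | h2
    · exact hq3
    · exfalso
      unfold InB at hin hq1
      unfold Gd at h2
      omega
  · intro h
    exact ⟨n, p, hp, hin, hmin, h⟩

/-- The colour rule for a step `c`, for which the membership in the squares does not change. -/
theorem rule_cl (F : Fam A K w) {y : X} (hy : ∃ n p, A p y ∈ K n ∧ InB p.1 p.2 (w n)) (c : ℤ × ℤ)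
    (hc : (c.1 + c.2) % 2 = 1)
    (h : ∀ n q, A q y ∈ K n → (InB q.1 q.2 (w n) ↔ InB (q.1 + c.1) (q.2 + c.2) (w n))) :
    cl A K w y = !cl A K w (A (-c) y) := by
  classical
  have hn := Nat.find_spec hy
  set n := Nat.find hy with hndef
  obtain ⟨p, hp, hin⟩ := hn
  have hmin : ∀ m < n, ∀ q, A q y ∈ K m → ¬ InB q.1 q.2 (w m) := by
    intro m hm q hq hqin
    exact Nat.find_min hy hm ⟨q, hq, hqin⟩
  rw [cl_eq F hp hin hmin]
  have hA := F.act
  have hp' : A (p + c) (A (-c) y) ∈ K n := by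
    rw [← hA.add, add_neg_cancel_right]; exact hp
  have hin' : InB (p + c).1 (p + c).2 (w n) := (h n p hp).1 hin
  have hmin' : ∀ m < n, ∀ q, A q (A (-c) y) ∈ K m → ¬ InB q.1 q.2 (w m) := by
    intro m hm q hq hqin
    rw [← hA.add] at hq
    refine hmin m hm _ hq ((h m _ hq).2 ?_)
    simpa using hqin
  rw [cl_eq F hp' hin' hmin']
  simp only [Prod.fst_add, Prod.snd_add]
  by_cases h1 : (p.1 + p.2) % 2 = 0
  · rw [decide_eq_true h1, decide_eq_false (by omega)]
    rfl
  · rw [decide_eq_false h1, decide_eq_true (by omega)]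
    rfl

theorem rule_v (F : Fam A K w) {y : X} (hy : ∃ n p, A p y ∈ K n ∧ InB p.1 p.2 (w n))
    (h : vl A K w y = .n) : cl A K w y = !cl A K w (A (-1, 0) y) := by
  classical
  have h1 : y ∉ EB A K w PL := by
    intro h1
    unfold vl at h
    rw [if_pos h1] at h
    exact absurd h (by decide)
  have h2 : y ∉ EB A K w PR := by
    intro h2
    unfold vl at h
    rw [if_neg h1, if_pos h2] at h
    exact absurd h (by decide)
  refine rule_cl F hy (1, 0) (by norm_num) ?_
  intro n q hq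
  have h3 : ¬ PL q.1 q.2 (w n) := fun h3 => h1 ⟨n, q, hq, h3⟩
  have h4 : ¬ PR q.1 q.2 (w n) := fun h4 => h2 ⟨n, q, hq, h4⟩
  have h5 : (0 : ℤ) < w n := by exact_mod_cast F.pos n
  unfold PL at h3
  unfold PR at h4
  unfold InB
  simp only
  omega

theorem rule_h (F : Fam A K w) {y : X} (hy : ∃ n p, A p y ∈ K n ∧ InB p.1 p.2 (w n))
    (h : hl A K w y = .n) : cl A K w y = !cl A K w (A (0, -1) y) := by
  classical
  have h1 : y ∉ EB A K w PB := by
    intro h1
    unfold hl at h
    rw [if_pos h1] at h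
    exact absurd h (by decide)
  have h2 : y ∉ EB A K w PT := by
    intro h2
    unfold hl at h
    rw [if_neg h1, if_pos h2] at h
    exact absurd h (by decide)
  refine rule_cl F hy (0, 1) (by norm_num) ?_
  intro n q hq
  have h3 : ¬ PB q.1 q.2 (w n) := fun h3 => h1 ⟨n, q, hq, h3⟩
  have h4 : ¬ PT q.1 q.2 (w n) := fun h4 => h2 ⟨n, q, hq, h4⟩
  have h5 : (0 : ℤ) < w n := by exact_mod_cast F.pos n
  unfold PB at h3
  unfold PT at h4
  unfold InB
  simp only
  omega

/-- Existence of a laminar family of squares which covers almost every point. -/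
theorem exists_fam [StandardBorelSpace X] (hA : Act2 A) (μ : Measure X) [IsFiniteMeasure μ] :
    ∃ (K : ℕ → Set X) (w : ℕ → ℕ), (∀ n, MeasurableSet (K n)) ∧ Fam A K w ∧
      ∀ᵐ x ∂μ, ∀ g, A g x ∈ EB A K w InB := by
  obtain ⟨C, w, hC, hw, hsep, hae⟩ := stages hA μ
  -- shift the index, so that the sizes are positive
  let C' : ℕ → Set X := fun n => C (n + 1)
  let w' : ℕ → ℕ := fun n => w (n + 1)
  have hw' : StrictMono w' := fun a b h => hw (by omega)
  have hpos : ∀ n, 0 < w' n := fun n => lt_of_le_of_lt (Nat.zero_le _) (hw (Nat.lt_succ_self n))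
  let K : ℕ → Set X := fun n => {v | v ∈ C' n ∧ ∀ m, n < m → ∀ g, A g v ∈ C' m →
    Gd 0 0 (w' n) g.1 g.2 (w' m)}
  have hK : ∀ n, MeasurableSet (K n) := by
    intro n
    have : K n = C' n ∩ ⋂ m : ℕ, ⋂ g : ℤ × ℤ, ({_x | n < m ∧ ¬ Gd 0 0 (w' n) g.1 g.2 (w' m)}ᶜ ∪
        (A g ⁻¹' C' m)ᶜ) := by
      ext x
      simp only [K, Set.mem_ofPred_eq, Set.mem_inter_iff, Set.mem_preimage,
        Set.mem_iInter, Set.mem_union, Set.mem_compl_iff]
      refine and_congr_right fun _ => forall_congr' fun m => ?_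
      constructor
      · intro h g
        have := fun h' => h h' g
        tauto
      · intro h hm g hg
        by_contra hc
        rcases h g with h1 | h1
        · exact h1 ⟨hm, hc⟩
        · exact h1 hg
    rw [this]
    refine (hC _).inter (MeasurableSet.iInter fun m => MeasurableSet.iInter fun g => ?_)
    exact (MeasurableSet.const _).compl.union (hA.meas _ (hC _)).compl
  have hpair : ∀ y n p m q, A p y ∈ K n → A q y ∈ K m →
      (n = m ∧ p = q) ∨ Gd p.1 p.2 (w' n) q.1 q.2 (w' m) := by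
    have key : ∀ y n p m q, n < m → A p y ∈ K n → A q y ∈ K m →
        Gd p.1 p.2 (w' n) q.1 q.2 (w' m) := by
      intro y n p m q hnm hp hq
      have h1 := hp.2 m hnm (q - p) (by rw [← hA.add, sub_add_cancel]; exact hq.1)
      unfold Gd at h1 ⊢
      simp only [Prod.fst_sub, Prod.snd_sub] at h1
      omega
    intro y n p m q hp hq
    rcases lt_trichotomy n m with h | h | h
    · exact Or.inr (key y n p m q h hp hq)
    · subst h
      have h1 := hsep (n + 1) _ hp.1 (q - p) (by rw [← hA.add, sub_add_cancel]; exact hq.1)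
      rcases h1 with h1 | h1 | h1
      · exact Or.inl ⟨rfl, (sub_eq_zero.1 h1).symm⟩
      · right
        rw [Prod.fst_sub, lt_abs] at h1
        change Gd p.1 p.2 (w (n + 1)) q.1 q.2 (w (n + 1))
        unfold Gd
        omega
      · right
        rw [Prod.snd_sub, lt_abs] at h1
        change Gd p.1 p.2 (w (n + 1)) q.1 q.2 (w (n + 1))
        unfold Gd
        omega
    · have h1 := key y m q n p h hq hp
      right
      unfold Gd at h1 ⊢
      omega
  refine ⟨K, w', hK, ⟨hA, hpos, hpair⟩, ?_⟩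
  filter_upwards [hae] with x hx
  obtain ⟨hx1, N, hx2⟩ := hx
  intro g
  -- a large stage at which `x` is covered
  obtain ⟨n, hn, hcov⟩ := hx1 (max (N + 1) (g.1.natAbs + g.2.natAbs + 1))
  obtain ⟨n, rfl⟩ : ∃ k, n = k + 1 := ⟨n - 1, by omega⟩
  have hnN : N ≤ n := by omega
  have hng : g.1.natAbs + g.2.natAbs ≤ n := by omega
  obtain ⟨p, hp, hpC⟩ := hcov
  have hkept : A (-p) x ∈ K n := by
    refine ⟨hpC, ?_⟩
    intro m hm h hh
    obtain ⟨m, rfl⟩ : ∃ k, m = k + 1 := ⟨m - 1, by omega⟩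
    rw [← hA.add] at hh
    have h1 := hx2 (m + 1) (by omega)
    have h2 : ¬ (((-(2 * (w (m + 1) : ℤ) + 4) ≤ (p - h).1 ∧ (p - h).1 < (w (m + 1 + 1) : ℤ) + (2 * w (m + 1) + 4) ∧
        -(2 * (w (m + 1) : ℤ) + 4) ≤ (p - h).2 ∧ (p - h).2 < (w (m + 1 + 1) : ℤ) + (2 * w (m + 1) + 4)) ∧
        ¬ ((2 * (w (m + 1) : ℤ) + 4) ≤ (p - h).1 ∧ (p - h).1 < (w (m + 1 + 1) : ℤ) - (2 * w (m + 1) + 4) ∧
          (2 * (w (m + 1) : ℤ) + 4) ≤ (p - h).2 ∧ (p - h).2 < (w (m + 1 + 1) : ℤ) - (2 * w (m + 1) + 4)))) := by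
      intro h3
      refine h1 ⟨p - h, h3, ?_⟩
      rw [neg_sub]
      exact hh
    have h4 : (w (n + 1) : ℤ) ≤ w (m + 1) := by
      exact_mod_cast hw.monotone (by omega)
    change Gd 0 0 (w (n + 1)) h.1 h.2 (w (m + 1 + 1))
    unfold Gd
    simp only [Prod.fst_sub, Prod.snd_sub] at h2
    omega
  -- the point is deep inside
  have h1 := hx2 n hnN
  have h5 : (2 * (w n : ℤ) + 4) ≤ p.1 ∧ p.1 < (w (n + 1) : ℤ) - (2 * w n + 4) ∧
      (2 * (w n : ℤ) + 4) ≤ p.2 ∧ p.2 < (w (n + 1) : ℤ) - (2 * w n + 4) := by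
    by_contra hcon
    refine h1 ⟨p, ⟨?_, hcon⟩, hpC⟩
    omega
  have h6 : n ≤ w n := hw.le_apply
  refine ⟨n, -p - g, ?_, ?_⟩
  · rw [← hA.add, sub_add_cancel]
    exact hkept
  · change InB (-p - g).1 (-p - g).2 (w (n + 1))
    unfold InB
    simp only [Prod.fst_sub, Prod.snd_sub, Prod.fst_neg, Prod.snd_neg]
    omega

end

end Pool.Agent.Y569.RT
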